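import Pool.Agent.Helper9.TOT.Common

/-!
# TOT piece CL0
-/

set_option autoImplicit false

namespace Pool.Agent.Helper9.TOT

open Pool.Agent.Helper44.TOT

theorem cl0 (hH : HolderFF) (hM : MomentCL0) : CL0 := by
  classical
  obtain ⟨C, hC1, hC⟩ := hM
  refine ⟨4 + 36 * C ^ 3, by nlinarith [pow_pos (lt_of_lt_of_le one_pos hC1) 3], ?_⟩
  intro A
  obtain ⟨A1, X0, hX0⟩ := hC (A + 1)
  obtain ⟨X1, hX1⟩ := ll_ge 4
  refine ⟨A1 + 1, max (max X0 X1) 3, ?_⟩
  intro x hx a M Y μ E T haM hM1 hY hE hμ hEc hT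
  have hx0 : X0 ≤ x := by omega
  have hx1 : X1 ≤ x := by omega
  have hx3 : 3 ≤ x := by omega
  have hs : 4 ≤ ll x := hX1 x hx1
  have hexps : Real.exp (ll x) = Real.log x := by
    rw [ll, Real.exp_log]
    exact Real.log_pos (by exact_mod_cast (by omega : 1 < x))
  set s := ll x with hsdef
  set L := Real.log x with hLdef
  have hL : 0 < L := Real.log_pos (by exact_mod_cast (by omega : 1 < x))
  have hY0 : 0 ≤ Y := le_trans (by positivity) hY
  have hμ0 : 0 < μ := lt_of_lt_of_le (Real.exp_pos _) hμ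
  have hmono : Real.exp (s ^ A1) ≤ Real.exp (s ^ (A1 + 1)) :=
    Real.exp_le_exp.2 (pow_le_pow_right₀ (by linarith) (by omega))
  have hML : L ≤ (M : ℝ) := by
    rw [← hexps]
    refine le_trans (Real.exp_le_exp.2 ?_) hM1
    exact le_self_pow₀ (by linarith) (by omega)
  set K := Kof μ with hKdef
  have hK1 : 1 ≤ K := Kof_ge μ
  have hKs : (K : ℝ) ≤ s ^ (A + 1) := Kof_le_pow μ s A (by linarith) hμ
  have hKexp : 1 ≤ μ * Real.exp K := Kof_exp μ hμ0
  have hKw : (K : ℝ) ≤ max 0 (-Real.log μ) + 2 := Kof_le μ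
  set w := max 0 (-Real.log μ) with hwdef
  have hw0 : 0 ≤ w := le_max_left _ _
  have hmom : ∀ S : Finset (ℕ × (Fin K → ℕ)),
      (∀ t ∈ S, t.1 ∈ E ∧ Function.Injective t.2 ∧ ∀ i, (t.1, t.2 i) ∈ T) →
      (S.card : ℝ) ≤ C * Y * (M : ℝ) ^ K * (((K : ℝ) + 1) * C / L) ^ (K + 1) := by
    intro S hS
    apply hX0 x hx0 K a M Y S hK1 hKs
    · rcases haM with h | h
      · exact Or.inl h
      · exact Or.inr ⟨h.1, le_trans hmono h.2⟩
    · exact le_trans hmono hM1
    · exact hY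
    · intro t ht
      obtain ⟨h1, h2, h3⟩ := hS t ht
      obtain ⟨h4, h5, h6⟩ := hE _ h1
      exact ⟨h4, h5, h6, h2, fun i => (hT _ (h3 i)).2⟩
  have hhold := holder_step hH E T (fun t ht => (hT t ht).1) K hK1 _ hmom
  have hEc' : (E.card : ℝ) ≤ μ * Y / L := hEc
  set Q := Y * M / L ^ 2 with hQdef
  have hQ0 : 0 ≤ Q := by positivity
  have hYL : Y / L ≤ Q := by
    rw [hQdef, pow_two, ← div_div]
    rw [le_div_iff₀ hL]
    have : Y / L * L ≤ Y / L * M := mul_le_mul_of_nonneg_left hML (by positivity)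
    calc Y / L * L ≤ Y / L * M := this
      _ = Y * M / L := by ring
  have hfirst : 2 * (K : ℝ) * E.card ≤ 4 * μ * (1 + w) * Q := by
    have h1 : 2 * (K : ℝ) ≤ 4 * (1 + w) := by linarith
    calc 2 * (K : ℝ) * E.card ≤ (4 * (1 + w)) * (μ * Y / L) :=
          mul_le_mul h1 hEc' (by positivity) (by positivity)
      _ = 4 * μ * (1 + w) * (Y / L) := by ring
      _ ≤ 4 * μ * (1 + w) * Q := mul_le_mul_of_nonneg_left hYL (by positivity)
  have htarget : (4 + 36 * C ^ 3) * μ * (1 + w) * Y * M / L ^ 2 =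
      4 * μ * (1 + w) * Q + 36 * C ^ 3 * μ * (1 + w) * Q := by
    rw [hQdef]
    ring
  have hC0 : 0 < C := by linarith
  rw [htarget]
  rcases hhold with h | h
  · have : 0 ≤ 36 * C ^ 3 * μ * (1 + w) * Q := by positivity
    linarith
  · set V := 12 * C ^ 3 * μ * ((K : ℝ) + 1) * Q with hVdef
    have hV0 : 0 ≤ V := by positivity
    have hkey : (E.card : ℝ) ^ (K - 1) * 2 ^ K *
        (C * Y * (M : ℝ) ^ K * (((K : ℝ) + 1) * C / L) ^ (K + 1)) ≤ V ^ K := by
      have h1 : (E.card : ℝ) ^ (K - 1) ≤ (μ * Y / L) ^ (K - 1) :=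
        pow_le_pow_left₀ (by positivity) hEc' _
      have h2 : (E.card : ℝ) ^ (K - 1) * 2 ^ K *
          (C * Y * (M : ℝ) ^ K * (((K : ℝ) + 1) * C / L) ^ (K + 1)) ≤
          (μ * Y / L) ^ (K - 1) * 2 ^ K *
          (C * Y * (M : ℝ) ^ K * (((K : ℝ) + 1) * C / L) ^ (K + 1)) := by
        apply mul_le_mul_of_nonneg_right _ (by positivity)
        exact mul_le_mul_of_nonneg_right h1 (by positivity)
      refine le_trans h2 ?_
      have hKK : (Y : ℝ) ^ K = Y ^ (K - 1) * Y := by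
        rw [← pow_succ, show K - 1 + 1 = K by omega]
      have hLK : (L : ℝ) ^ K = L ^ (K - 1) * L := by
        rw [← pow_succ, show K - 1 + 1 = K by omega]
      have hμK : (μ : ℝ) ^ K = μ ^ (K - 1) * μ := by
        rw [← pow_succ, show K - 1 + 1 = K by omega]
      have h3 : (μ * Y / L) ^ (K - 1) * 2 ^ K *
          (C * Y * (M : ℝ) ^ K * (((K : ℝ) + 1) * C / L) ^ (K + 1)) =
          (μ ^ (K - 1) * ((K : ℝ) + 1) ^ K * (2 * C) ^ K * Q ^ K) * (C ^ 2 * ((K : ℝ) + 1)) := by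
        have e1 : (μ * Y / L) ^ (K - 1) = μ ^ (K - 1) * (Y / L) ^ (K - 1) := by
          rw [mul_div_assoc, mul_pow]
        have e2 : (((K : ℝ) + 1) * C / L) ^ (K + 1) =
            ((K : ℝ) + 1) ^ K * C ^ K / L ^ K * (((K : ℝ) + 1) * C / L) := by
          rw [pow_succ, div_pow, mul_pow]
        have e3 : Q ^ K = (Y / L) ^ (K - 1) * (Y / L) * (M ^ K / L ^ K) := by
          rw [← pow_succ, show K - 1 + 1 = K by omega, ← div_pow, ← mul_pow, hQdef]
          congr 1
          field_simp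
        rw [e1, e2, e3, mul_pow 2 C]
        ring
      have h4 : V ^ K = (μ ^ (K - 1) * ((K : ℝ) + 1) ^ K * (2 * C) ^ K * Q ^ K) *
          (μ * 3 ^ K * (2 ^ K * (C ^ 2) ^ K)) := by
        have : V = μ * ((K : ℝ) + 1) * (2 * C) * Q * (3 * (2 * C ^ 2)) := by
          rw [hVdef]; ring
        rw [this, mul_pow, mul_pow, mul_pow, mul_pow, mul_pow 3, mul_pow 2 (C ^ 2), hμK]
        ring
      rw [h3, h4]
      apply mul_le_mul_of_nonneg_left _ (by positivity)
      have h5 : (1 : ℝ) ≤ μ * 3 ^ K := by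
        refine le_trans hKexp ?_
        apply mul_le_mul_of_nonneg_left _ hμ0.le
        have h17 : Real.exp (K : ℝ) = Real.exp 1 ^ K := by
          rw [← Real.exp_nat_mul, mul_one]
        rw [h17]
        apply pow_le_pow_left₀ (Real.exp_pos _).le
        have := Real.exp_one_lt_d9
        linarith
      have h6 : (K : ℝ) + 1 ≤ 2 ^ K := by
        exact_mod_cast Nat.lt_two_pow_self (n := K)
      have h7 : C ^ 2 ≤ (C ^ 2) ^ K := le_self_pow₀ (one_le_pow₀ hC1) (by omega)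
      calc C ^ 2 * ((K : ℝ) + 1) ≤ (C ^ 2) ^ K * 2 ^ K :=
            mul_le_mul h7 h6 (by positivity) (by positivity)
        _ = 1 * (2 ^ K * (C ^ 2) ^ K) := by ring
        _ ≤ μ * 3 ^ K * (2 ^ K * (C ^ 2) ^ K) :=
            mul_le_mul_of_nonneg_right h5 (by positivity)
    have hD : (T.card : ℝ) - 2 * K * E.card ≤ V := by
      by_contra hcon
      rw [not_le] at hcon
      have h8 : V ^ K < ((T.card : ℝ) - 2 * K * E.card) ^ K :=
        pow_lt_pow_left₀ hcon hV0 (by omega)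
      linarith
    have hV1 : V ≤ 36 * C ^ 3 * μ * (1 + w) * Q := by
      rw [hVdef]
      have h9 : (K : ℝ) + 1 ≤ 3 * (1 + w) := by linarith
      calc 12 * C ^ 3 * μ * ((K : ℝ) + 1) * Q ≤ 12 * C ^ 3 * μ * (3 * (1 + w)) * Q := by
            apply mul_le_mul_of_nonneg_right _ hQ0
            exact mul_le_mul_of_nonneg_left h9 (by positivity)
        _ = 36 * C ^ 3 * μ * (1 + w) * Q := by ring
    linarith

end Pool.Agent.Helper9.TOT
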