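import Pool.Agent.Helper9.TOT.Common

/-!
# TOT piece CLC
-/

set_option autoImplicit false

namespace Pool.Agent.Helper9.TOT

open Pool.Agent.Helper44.TOT

/-- two proportional forms with prime values at the same point are equal -/
lemma forms_eq (f g : ℕ × ℕ) (q : ℕ) (hq : 1 ≤ q) (hf1 : 1 ≤ f.1)
    (hf2 : 1 ≤ f.2) (hfp : (f.1 * q + f.2).Prime) (hgp : (g.1 * q + g.2).Prime)
    (h : f.1 * g.2 = g.1 * f.2) : f = g := by
  have hkey : (f.1 * q + f.2) * g.2 = (g.1 * q + g.2) * f.2 := by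
    have : f.1 * q * g.2 = g.1 * q * f.2 := by
      calc f.1 * q * g.2 = (f.1 * g.2) * q := by ring
        _ = (g.1 * f.2) * q := by rw [h]
        _ = g.1 * q * f.2 := by ring
    rw [add_mul, add_mul, this]
    ring
  have hlt : f.2 < f.1 * q + f.2 := by
    have : 1 ≤ f.1 * q := Nat.mul_pos hf1 hq
    omega
  have hdvd : (f.1 * q + f.2) ∣ (g.1 * q + g.2) * f.2 := ⟨g.2, hkey.symm⟩
  have hFG : f.1 * q + f.2 = g.1 * q + g.2 := by
    rcases (Nat.Prime.dvd_mul hfp).1 hdvd with h1 | h1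
    · exact (Nat.prime_dvd_prime_iff_eq hfp hgp).1 h1
    · exact absurd (Nat.le_of_dvd (by omega) h1) (by omega)
  have h2 : f.2 = g.2 := by
    rw [← hFG] at hkey
    exact (Nat.eq_of_mul_eq_mul_left hfp.pos hkey).symm
  have h1 : f.1 = g.1 := by
    rw [h2] at hFG
    have : f.1 * q = g.1 * q := by omega
    exact Nat.eq_of_mul_eq_mul_right hq this
  exact Prod.ext h1 h2

/-- the forms attached to a chain `σ` and a tuple `μ` -/
noncomputable def forms (σ : List ℕ) (a K : ℕ) (μ : Fin K → ℕ) : Finset (ℕ × ℕ) :=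
  insert (1, 0) (((Finset.univ : Finset (Fin K)) ×ˢ Finset.range (σ.length + 1)).image
    (fun ij => ((σ.drop ij.2).prod * (a * μ ij.1), (σ.drop ij.2).prod + up (σ.drop ij.2) 0)))

lemma prod_drop_pos (σ : List ℕ) (hσ : ∀ m ∈ σ, 1 ≤ m) (j : ℕ) : 1 ≤ (σ.drop j).prod := by
  apply List.one_le_prod_of_one_le
  intro m hm
  exact hσ m (List.mem_of_mem_drop hm)

lemma drop_tails (σ : List ℕ) (j : ℕ) : σ.drop j ∈ σ.tails := by
  rw [List.mem_tails]
  exact List.drop_suffix j σ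

lemma second_ne (hAlg : ChainAlg) (σ : List ℕ) (hσ : ∀ m ∈ σ, 1 ≤ m) (j j' : ℕ)
    (hj : j < σ.length + 1) (hj' : j' < σ.length + 1)
    (h : (σ.drop j).prod + up (σ.drop j) 0 = (σ.drop j').prod + up (σ.drop j') 0) : j = j' := by
  by_contra hne
  rcases lt_or_gt_of_ne hne with h1 | h1
  · have h2 := (hAlg.2.2.1 σ (σ.drop j') (σ.drop j) hσ (drop_tails σ j') (drop_tails σ j)
      (by rw [List.length_drop, List.length_drop]; omega)).2.1
    omega
  · have h2 := (hAlg.2.2.1 σ (σ.drop j) (σ.drop j') hσ (drop_tails σ j) (drop_tails σ j')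
      (by rw [List.length_drop, List.length_drop]; omega)).2.1
    omega

lemma forms_card (hAlg : ChainAlg) (σ : List ℕ) (hσ : ∀ m ∈ σ, 1 ≤ m) (a K : ℕ) (ha : 1 ≤ a)
    (μ : Fin K → ℕ) (hμ : Function.Injective μ) :
    (forms σ a K μ).card = 1 + K * (σ.length + 1) := by
  classical
  unfold forms
  rw [Finset.card_insert_of_notMem, Finset.card_image_of_injOn, Finset.card_product,
    Finset.card_univ, Fintype.card_fin, Finset.card_range]
  · ring
  · rintro ⟨i, j⟩ h1 ⟨i', j'⟩ h2 h3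
    simp only [Finset.coe_product, Set.mem_prod, Finset.coe_univ, Set.mem_univ, true_and,
      Finset.coe_range, Set.mem_Iio] at h1 h2
    simp only [Prod.mk.injEq] at h3
    obtain ⟨h4, h5⟩ := h3
    have h6 : j = j' := second_ne hAlg σ hσ j j' h1 h2 h5
    subst h6
    have h7 := prod_drop_pos σ hσ j
    have h8 : a * μ i = a * μ i' := Nat.eq_of_mul_eq_mul_left h7 h4
    have h9 : μ i = μ i' := Nat.eq_of_mul_eq_mul_left ha h8
    rw [hμ h9]
  · intro h
    rw [Finset.mem_image] at h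
    obtain ⟨⟨i, j⟩, -, h2⟩ := h
    have h3 := (Prod.mk.inj h2).2
    have h4 := prod_drop_pos σ hσ j
    simp only at h3
    omega

lemma up_drop_le (hAlg : ChainAlg) (σ : List ℕ) (hσ : ∀ m ∈ σ, 1 ≤ m) (j n : ℕ) (hn : 1 ≤ n) :
    up (σ.drop j) n ≤ up σ n := by
  rcases Nat.eq_zero_or_pos j with h0 | h0
  · subst h0
    simp
  rcases Nat.eq_zero_or_pos σ.length with hl | hl
  · have : σ = [] := List.length_eq_zero_iff.1 hl
    subst this
    simp
  have h1 := hAlg.2.2.1 σ (σ.drop j) σ hσ (drop_tails σ j) (by rw [List.mem_tails])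
    (by rw [List.length_drop]; omega)
  rw [hAlg.1 (σ.drop j) n, hAlg.1 σ n]
  obtain ⟨m, rfl⟩ : ∃ m, n = m + 1 := ⟨n - 1, by omega⟩
  have h2 := Nat.mul_le_mul_right m h1.2.2
  have h3 := h1.2.1
  have e1 : (σ.drop j).prod * (m + 1) = (σ.drop j).prod * m + (σ.drop j).prod := by ring
  have e2 : σ.prod * (m + 1) = σ.prod * m + σ.prod := by ring
  omega

/-- value of a form -/
lemma form_value (hAlg : ChainAlg) (τ : List ℕ) (a m q : ℕ) :
    τ.prod * (a * m) * q + (τ.prod + up τ 0) = up τ (a * m * q + 1) := by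
  rw [hAlg.1 τ (a * m * q + 1)]
  ring


lemma rpow_aux : ∃ X0 : ℕ, ∀ x : ℕ, X0 ≤ x → ∀ Y : ℝ, (x : ℝ) ^ ((1 : ℝ) / 4) ≤ Y →
    (x : ℝ) ^ ((1 : ℝ) / 20) ≤ ((⌊2 * Y⌋₊ : ℕ) : ℝ) := by
  refine ⟨1, fun x hx Y hY => ?_⟩
  have hx1 : (1 : ℝ) ≤ x := by exact_mod_cast hx
  have h1 : (x : ℝ) ^ ((1 : ℝ) / 20) ≤ (x : ℝ) ^ ((1 : ℝ) / 4) :=
    Real.rpow_le_rpow_of_exponent_le hx1 (by norm_num)
  have h2 : (1 : ℝ) ≤ (x : ℝ) ^ ((1 : ℝ) / 4) := Real.one_le_rpow hx1 (by norm_num)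
  have h3 := Nat.lt_floor_add_one (2 * Y)
  linarith

/-- bound for the number of `q` for one tuple `μ` -/
lemma fibre (hPS : PS) (hAlg : ChainAlg) (A : ℕ) : ∃ C X0 : ℕ, ∀ x : ℕ, X0 ≤ x →
    ∀ (σ : List ℕ) (a K : ℕ) (μ : Fin K → ℕ) (Y : ℝ) (F : Finset ℕ),
    (1 : ℝ) + K * (σ.length + 1) ≤ (ll x) ^ A → (∀ m ∈ σ, 1 ≤ m) → 1 ≤ a →
    Function.Injective μ → (∀ i, 1 ≤ μ i) → (x : ℝ) ^ ((1 : ℝ) / 4) ≤ Y →
    (∀ q ∈ F, q.Prime ∧ (x : ℝ) ^ ((1 : ℝ) / 5) ≤ q ∧ (q : ℝ) ≤ 2 * Y ∧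
      ∀ i, CP σ (a * μ i * q + 1) ∧ up σ (a * μ i * q + 1) ≤ x) →
    (F.card : ℝ) ≤ 2 * Y * ((ll x) ^ C / Real.log x) ^ (1 + K * (σ.length + 1)) := by
  classical
  obtain ⟨C, X0, hC⟩ := hPS A
  obtain ⟨X1, hX1⟩ := rpow_aux
  obtain ⟨X2, hX2⟩ := ll_ge 1
  refine ⟨C, max (max X0 X1) (max X2 3), fun x hx σ a K μ Y F hcard hσ ha hinj hμ hY hF => ?_⟩
  have hx0 : X0 ≤ x := by omega
  have hx1 : X1 ≤ x := by omega
  have hx2 : X2 ≤ x := by omega
  have hx3 : 3 ≤ x := by omega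
  have hxr : (1 : ℝ) ≤ x := by exact_mod_cast (by omega : 1 ≤ x)
  have hlog : 0 < Real.log x := Real.log_pos (by exact_mod_cast (by omega : 1 < x))
  have hll : 1 ≤ ll x := hX2 x hx2
  have hY0 : 0 ≤ Y := le_trans (by positivity) hY
  have hRHS : 0 ≤ 2 * Y * ((ll x) ^ C / Real.log x) ^ (1 + K * (σ.length + 1)) := by positivity
  rcases F.eq_empty_or_nonempty with he | hne
  · rw [he, Finset.card_empty, Nat.cast_zero]
    exact hRHS
  have hfc := forms_card hAlg σ hσ a K ha μ hinj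
  -- every form has a prime value at q ∈ F
  have hval : ∀ q ∈ F, ∀ f ∈ forms σ a K μ, 1 ≤ f.1 ∧ (f.1 * q + f.2).Prime ∧
      f.1 * q + f.2 ≤ max q x ∧ (f = (1, 0) ∨ 1 ≤ f.2) := by
    intro q hq f hf
    obtain ⟨h1, h2, h3, h4⟩ := hF q hq
    rw [forms, Finset.mem_insert, Finset.mem_image] at hf
    rcases hf with hf | ⟨⟨i, j⟩, hij, hf⟩
    · rw [hf]
      refine ⟨le_refl 1, ?_, ?_, Or.inl rfl⟩
      · simpa using h1
      · simp
    · obtain ⟨h5, h6⟩ := h4 i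
      have hp := prod_drop_pos σ hσ j
      have h7 : 1 ≤ a * μ i := Nat.mul_pos ha (hμ i)
      rw [← hf]
      refine ⟨Nat.mul_pos hp h7, ?_, ?_, Or.inr (by simp only; omega)⟩
      · simp only
        rw [form_value hAlg]
        exact (hAlg.2.2.2 σ _).1 h5 _ (drop_tails σ j)
      · simp only
        rw [form_value hAlg]
        exact le_trans (up_drop_le hAlg σ hσ j _ (by omega)) (le_trans h6 (le_max_right _ _))
  -- the pointwise estimate
  obtain ⟨q0, hq0⟩ := hne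
  have hK1 : ∀ q ∈ F, ∀ f ∈ forms σ a K μ, 1 ≤ f.1 ∧ f.1 ≤ x ^ 2 ∧ f.2 ≤ x ^ 2 := by
    intro q hq f hf
    obtain ⟨h1, h2, h3, h4⟩ := hF q hq
    rw [forms, Finset.mem_insert, Finset.mem_image] at hf
    rcases hf with hf | ⟨⟨i, j⟩, hij, hf⟩
    · rw [hf]
      refine ⟨le_refl 1, ?_, by simp⟩
      simp only
      nlinarith
    · obtain ⟨h5, h6⟩ := h4 i
      have hp := prod_drop_pos σ hσ j
      have h7 : 1 ≤ a * μ i := Nat.mul_pos ha (hμ i)
      have h8 : up (σ.drop j) (a * μ i * q + 1) ≤ x :=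
        le_trans (up_drop_le hAlg σ hσ j _ (by omega)) h6
      rw [← form_value hAlg] at h8
      have h9 : x ≤ x ^ 2 := by nlinarith
      have h10 : (σ.drop j).prod * (a * μ i) ≤ (σ.drop j).prod * (a * μ i) * q :=
        Nat.le_mul_of_pos_right _ h1.pos
      rw [← hf]
      refine ⟨Nat.mul_pos hp h7, ?_, ?_⟩
      · simp only
        omega
      · simp only
        omega
  have hcoef := hK1 q0 hq0
  have hnp : ∀ f ∈ forms σ a K μ, ∀ g ∈ forms σ a K μ, f ≠ g → f.1 * g.2 ≠ g.1 * f.2 := by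
    intro f hf g hg hfg h
    obtain ⟨f1, f2, f3, f4⟩ := hval q0 hq0 f hf
    obtain ⟨g1, g2, g3, g4⟩ := hval q0 hq0 g hg
    have hq1 : 1 ≤ q0 := (hF q0 hq0).1.pos
    rcases f4 with f4 | f4
    · rcases g4 with g4 | g4
      · exact hfg (f4.trans g4.symm)
      · rw [f4] at h
        simp only at h
        omega
    · exact hfg (forms_eq f g q0 hq1 f1 f4 f2 g2 h)
  have hmain := hC x hx0 (forms σ a K μ) ⌊2 * Y⌋₊ F ⟨(1, 0), by rw [forms]; exact Finset.mem_insert_self _ _⟩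
    (by rw [hfc]; push_cast; exact hcard) hcoef hnp (hX1 x hx1 Y hY)
    (by
      intro q hq
      obtain ⟨h1, h2, h3, h4⟩ := hF q hq
      refine ⟨Nat.le_floor h3, fun f hf => ?_⟩
      obtain ⟨f1, f2, f3, f4⟩ := hval q hq f hf
      refine ⟨f2, ?_⟩
      have h5 : (x : ℝ) ^ ((1 : ℝ) / 60) ≤ (x : ℝ) ^ ((1 : ℝ) / 5) :=
        Real.rpow_le_rpow_of_exponent_le hxr (by norm_num)
      have h6 : q ≤ f.1 * q + f.2 := by nlinarith
      have h7 : (q : ℝ) ≤ ((f.1 * q + f.2 : ℕ) : ℝ) := by exact_mod_cast h6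
      linarith)
  rw [hfc] at hmain
  refine le_trans hmain ?_
  apply mul_le_mul_of_nonneg_right (Nat.floor_le (by positivity)) (by positivity)


/-- counting by tuples -/
lemma card_by_tuples (K : ℕ) (U : Finset ℕ) (S : Finset (ℕ × (Fin K → ℕ))) (b : ℝ)
    (hS : ∀ t ∈ S, ∀ i, t.2 i ∈ U) (hb : ∀ μ : Fin K → ℕ, ∀ F : Finset ℕ, (∀ i, μ i ∈ U) →
      (∀ q ∈ F, (q, μ) ∈ S) → (F.card : ℝ) ≤ b) :
    (S.card : ℝ) ≤ (U.card : ℝ) ^ K * b := by
  classical
  have hmaps : ∀ t ∈ S, t.2 ∈ Fintype.piFinset (fun _ : Fin K => U) := by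
    intro t ht
    rw [Fintype.mem_piFinset]
    exact hS t ht
  have h1 : S.card = ∑ μ ∈ Fintype.piFinset (fun _ : Fin K => U),
      (S.filter (fun t => t.2 = μ)).card := Finset.card_eq_sum_card_fiberwise hmaps
  have h2 : ∀ μ ∈ Fintype.piFinset (fun _ : Fin K => U),
      ((S.filter (fun t => t.2 = μ)).card : ℝ) ≤ b := by
    intro μ hμ
    rw [Fintype.mem_piFinset] at hμ
    have h3 : ((S.filter (fun t => t.2 = μ)).image Prod.fst).card =
        (S.filter (fun t => t.2 = μ)).card := by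
      apply Finset.card_image_of_injOn
      rintro ⟨q, ν⟩ h4 ⟨q', ν'⟩ h5 h6
      simp only [Finset.coe_filter, Set.mem_ofPred_eq] at h4 h5 h6
      rw [Prod.mk.injEq]
      exact ⟨h6, h4.2.trans h5.2.symm⟩
    rw [← h3]
    apply hb μ _ hμ
    intro q hq
    rw [Finset.mem_image] at hq
    obtain ⟨⟨q', ν⟩, h4, h5⟩ := hq
    rw [Finset.mem_filter] at h4
    simp only at h4 h5
    rw [← h5, ← h4.2]
    exact h4.1
  rw [h1]
  push_cast
  calc ∑ μ ∈ Fintype.piFinset (fun _ : Fin K => U), ((S.filter (fun t => t.2 = μ)).card : ℝ)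
      ≤ ∑ _μ ∈ Fintype.piFinset (fun _ : Fin K => U), b := Finset.sum_le_sum h2
    _ = (U.card : ℝ) ^ K * b := by
        rw [Finset.sum_const, nsmul_eq_mul, Fintype.card_piFinset]
        simp

theorem clc (hPS : PS) (hH : HolderFF) (hAlg : ChainAlg) : CLC := by
  classical
  intro A
  obtain ⟨C0, X0, hC0⟩ := fibre hPS hAlg (2 * A + 2)
  obtain ⟨X1, hX1⟩ := ll_ge 4
  refine ⟨2 * C0 + 3 + (A + 2), max (max X0 X1) 3, ?_⟩
  intro x hx σ a Ms Y μ E T hr hσ ha hMs hY hYx hE hμ hEc hT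
  have hx0 : X0 ≤ x := by omega
  have hx1 : X1 ≤ x := by omega
  have hx3 : 3 ≤ x := by omega
  have hs : 4 ≤ ll x := hX1 x hx1
  set s := ll x with hsdef
  set L := Real.log x with hLdef
  have hL : 0 < L := Real.log_pos (by exact_mod_cast (by omega : 1 < x))
  have hY0 : 0 ≤ Y := le_trans (by positivity) hY
  have hμ0 : 0 < μ := lt_of_lt_of_le (Real.exp_pos _) hμ
  set K := Kof μ with hKdef
  have hK1 : 1 ≤ K := Kof_ge μ
  have hKs : (K : ℝ) ≤ s ^ (A + 1) := Kof_le_pow μ s A (by linarith) hμ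
  have hKexp : 1 ≤ μ * Real.exp K := Kof_exp μ hμ0
  set r := σ.length with hrdef
  have hsA : (1 : ℝ) ≤ s ^ A := one_le_pow₀ (by linarith)
  have hnum : (1 : ℝ) + K * (r + 1) ≤ s ^ (2 * A + 2) := by
    have h1 : (r : ℝ) + 1 ≤ 2 * s ^ A := by linarith
    have h2 : (K : ℝ) * (r + 1) ≤ s ^ (A + 1) * (2 * s ^ A) := by
      apply mul_le_mul hKs h1 (by positivity) (by positivity)
    have h3 : s ^ (A + 1) * (2 * s ^ A) = 2 * s ^ (2 * A + 1) := by
      rw [show 2 * A + 1 = (A + 1) + A by ring, pow_add]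
      ring
    have h4 : (1 : ℝ) ≤ s ^ (2 * A + 1) := one_le_pow₀ (by linarith)
    have h5 : s ^ (2 * A + 2) = s ^ (2 * A + 1) * s := pow_succ s (2 * A + 1)
    nlinarith
  set P := s ^ C0 / L with hPdef
  have hP : 0 < P := by positivity
  set b := 2 * Y * P ^ (1 + K * (r + 1)) with hbdef
  have hb0 : 0 ≤ b := by positivity
  -- the moment bound
  have hmom : ∀ S : Finset (ℕ × (Fin K → ℕ)),
      (∀ t ∈ S, t.1 ∈ E ∧ Function.Injective t.2 ∧ ∀ i, (t.1, t.2 i) ∈ T) →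
      (S.card : ℝ) ≤ (Ms.card : ℝ) ^ K * b := by
    intro S hS
    apply card_by_tuples K Ms S b
    · intro t ht i
      exact (hT _ ((hS t ht).2.2 i)).2.1
    · intro ν F hν hF
      rcases F.eq_empty_or_nonempty with he | hne
      · rw [he, Finset.card_empty, Nat.cast_zero]
        exact hb0
      · obtain ⟨q0, hq0⟩ := hne
        apply hC0 x hx0 σ a K ν Y F hnum hσ ha (hS _ (hF q0 hq0)).2.1
          (fun i => hMs _ (hν i)) hY
        intro q hq
        have h1 := hS _ (hF q hq)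
        have h2 := hE q h1.1
        exact ⟨h2.1, h2.2.1, h2.2.2, fun i => (hT _ (h1.2.2 i)).2.2⟩
  have hhold := holder_step hH E T (fun t ht => (hT t ht).1) K hK1 _ hmom
  -- the first part
  have hEL : 0 ≤ μ * (Y / L) := by positivity
  have hEc' : (E.card : ℝ) ≤ μ * (Y / L) := by
    rw [mul_div_assoc] at hEc
    exact hEc
  set C := 2 * C0 + 3 + (A + 2) with hCdef
  have hfirst : 2 * (K : ℝ) * E.card ≤ μ * (Y / L) * s ^ C := by
    have h1 : 2 * (K : ℝ) ≤ s ^ C := by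
      have h2 : s ^ (A + 2) = s ^ (A + 1) * s := pow_succ s (A + 1)
      have h3 : s ^ (A + 2) ≤ s ^ C := pow_le_pow_right₀ (by linarith) (by omega)
      have h4 : (0 : ℝ) ≤ s ^ (A + 1) := by positivity
      nlinarith
    calc 2 * (K : ℝ) * E.card ≤ s ^ C * (μ * (Y / L)) :=
          mul_le_mul h1 hEc' (by positivity) (by positivity)
      _ = μ * (Y / L) * s ^ C := by ring
  have hsecond : 0 ≤ μ * (Y / L) * ((Ms.card : ℝ) * (s ^ C / L) ^ (r + 1)) := by positivity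
  have hsplit : μ * (Y / L) * (s ^ C + (Ms.card : ℝ) * (s ^ C / L) ^ (r + 1)) =
      μ * (Y / L) * s ^ C + μ * (Y / L) * ((Ms.card : ℝ) * (s ^ C / L) ^ (r + 1)) := by ring
  rw [hsplit]
  rcases hhold with h | h
  · linarith
  · -- compare K-th powers
    set V := μ * (Y / L) * ((Ms.card : ℝ) * (s ^ C / L) ^ (r + 1)) with hVdef
    have hkey : (E.card : ℝ) ^ (K - 1) * 2 ^ K * ((Ms.card : ℝ) ^ K * b) ≤ V ^ K := by
      have h1 : (E.card : ℝ) ^ (K - 1) ≤ (μ * (Y / L)) ^ (K - 1) :=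
        pow_le_pow_left₀ (by positivity) hEc' _
      have h2 : (E.card : ℝ) ^ (K - 1) * 2 ^ K * ((Ms.card : ℝ) ^ K * b) ≤
          (μ * (Y / L)) ^ (K - 1) * 2 ^ K * ((Ms.card : ℝ) ^ K * b) := by
        apply mul_le_mul_of_nonneg_right _ (by positivity)
        exact mul_le_mul_of_nonneg_right h1 (by positivity)
      refine le_trans h2 ?_
      have h3 : b = 2 * (Y / L) * s ^ C0 * (P ^ (r + 1)) ^ K := by
        have hPL : Y * P = (Y / L) * s ^ C0 := by rw [hPdef]; ring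
        have e1 : P ^ (1 + K * (r + 1)) = P * (P ^ (r + 1)) ^ K := by
          rw [pow_add, pow_one, mul_comm K (r + 1), pow_mul]
        rw [hbdef, e1]
        calc 2 * Y * (P * (P ^ (r + 1)) ^ K) = 2 * (Y * P) * (P ^ (r + 1)) ^ K := by ring
          _ = 2 * (Y / L) * s ^ C0 * (P ^ (r + 1)) ^ K := by rw [hPL]; ring
      have h4 : s ^ C / L = P * s ^ (C - C0) := by
        rw [hPdef, div_mul_eq_mul_div, ← pow_add, show C0 + (C - C0) = C by omega]
      have h5 : V ^ K = (μ * (Y / L)) ^ K * (Ms.card : ℝ) ^ K * (P ^ (r + 1)) ^ K *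
          (s ^ (C - C0)) ^ ((r + 1) * K) := by
        have e2 : ((P * s ^ (C - C0)) ^ (r + 1)) ^ K =
            (P ^ (r + 1)) ^ K * (s ^ (C - C0)) ^ ((r + 1) * K) := by
          rw [mul_pow, mul_pow, pow_mul (s ^ (C - C0))]
        rw [hVdef, h4, mul_pow, mul_pow (Ms.card : ℝ), e2]
        ring
      have h6 : (μ * (Y / L)) ^ K = (μ * (Y / L)) ^ (K - 1) * (μ * (Y / L)) := by
        rw [← pow_succ, show K - 1 + 1 = K by omega]
      rw [h3, h5, h6]
      have h7 : 2 ^ K * (2 * s ^ C0) ≤ μ * (s ^ (C - C0)) ^ ((r + 1) * K) := by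
        have h8 : (s ^ (C - C0)) ^ ((r + 1) * K) ≥ (s ^ (C0 + 3)) ^ K := by
          have h9 : s ^ (C0 + 3) ≤ s ^ (C - C0) := pow_le_pow_right₀ (by linarith) (by omega)
          have h10 : (1 : ℝ) ≤ s ^ (C - C0) := one_le_pow₀ (by linarith)
          calc (s ^ (C0 + 3)) ^ K ≤ (s ^ (C - C0)) ^ K := pow_le_pow_left₀ (by positivity) h9 _
            _ ≤ (s ^ (C - C0)) ^ ((r + 1) * K) := by
                apply pow_le_pow_right₀ h10
                nlinarith
        have h11 : (s ^ (C0 + 3)) ^ K = (s ^ C0) ^ K * (s ^ 3) ^ K := by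
          rw [← mul_pow, ← pow_add]
        have h12 : s ^ C0 ≤ (s ^ C0) ^ K := by
          have h13 : (1 : ℝ) ≤ s ^ C0 := one_le_pow₀ (by linarith)
          exact le_self_pow₀ h13 (by omega)
        have h14 : (2 : ℝ) ^ K * 2 * Real.exp K ≤ (s ^ 3) ^ K := by
          have h15 : (2 : ℝ) ≤ 2 ^ K := le_self_pow₀ (by norm_num) (by omega)
          have h16 : Real.exp K ≤ 3 ^ K := by
            have h17 : Real.exp (K : ℝ) = Real.exp 1 ^ K := by
              rw [← Real.exp_nat_mul, mul_one]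
            rw [h17]
            apply pow_le_pow_left₀ (Real.exp_pos _).le
            have := Real.exp_one_lt_d9
            linarith
          have h18 : (2 : ℝ) ^ K * 2 ^ K * 3 ^ K ≤ (s ^ 3) ^ K := by
            rw [← mul_pow, ← mul_pow]
            apply pow_le_pow_left₀ (by norm_num)
            have : (4 : ℝ) ^ 3 ≤ s ^ 3 := pow_le_pow_left₀ (by norm_num) hs 3
            linarith
          calc (2 : ℝ) ^ K * 2 * Real.exp K ≤ 2 ^ K * 2 ^ K * 3 ^ K := by
                apply mul_le_mul _ h16 (Real.exp_pos _).le (by positivity)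
                apply mul_le_mul_of_nonneg_left h15 (by positivity)
            _ ≤ (s ^ 3) ^ K := h18
        have hexp : 0 < Real.exp (K : ℝ) := Real.exp_pos _
        calc (2 : ℝ) ^ K * (2 * s ^ C0) = (2 ^ K * 2) * s ^ C0 * 1 := by ring
          _ ≤ (2 ^ K * 2) * s ^ C0 * (μ * Real.exp K) :=
              mul_le_mul_of_nonneg_left hKexp (by positivity)
          _ = μ * (s ^ C0 * (2 ^ K * 2 * Real.exp K)) := by ring
          _ ≤ μ * ((s ^ C0) ^ K * (s ^ 3) ^ K) := by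
              apply mul_le_mul_of_nonneg_left _ hμ0.le
              exact mul_le_mul h12 h14 (by positivity) (by positivity)
          _ = μ * (s ^ (C0 + 3)) ^ K := by rw [h11]
          _ ≤ μ * (s ^ (C - C0)) ^ ((r + 1) * K) := mul_le_mul_of_nonneg_left h8 hμ0.le
      calc (μ * (Y / L)) ^ (K - 1) * 2 ^ K * ((Ms.card : ℝ) ^ K *
            (2 * (Y / L) * s ^ C0 * (P ^ (r + 1)) ^ K))
          = ((μ * (Y / L)) ^ (K - 1) * (Ms.card : ℝ) ^ K * (P ^ (r + 1)) ^ K * (Y / L)) *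
              (2 ^ K * (2 * s ^ C0)) := by ring
        _ ≤ ((μ * (Y / L)) ^ (K - 1) * (Ms.card : ℝ) ^ K * (P ^ (r + 1)) ^ K * (Y / L)) *
              (μ * (s ^ (C - C0)) ^ ((r + 1) * K)) :=
            mul_le_mul_of_nonneg_left h7 (by positivity)
        _ = _ := by ring
    have hV0 : 0 ≤ V := hsecond
    have hD : (T.card : ℝ) - 2 * K * E.card ≤ V := by
      by_contra hcon
      rw [not_le] at hcon
      have h8 : V ^ K < ((T.card : ℝ) - 2 * K * E.card) ^ K :=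
        pow_lt_pow_left₀ hcon hV0 (by omega)
      linarith
    linarith

end Pool.Agent.Helper9.TOT
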