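import Pool.Agent.Helper9.TOT.MomentAux

/-!
# TOT piece MomentCL0
-/

set_option autoImplicit false

namespace Pool.Agent.Helper9.TOT

open Pool.Agent.Helper44.TOT

/-- facts on the parameters at the scale `x` -/
lemma params (A : ℕ) : ∃ X0 : ℕ, ∀ x : ℕ, X0 ≤ x → ∃ n0 R z : ℕ, 4 ≤ ll x ∧ 100 ≤ Real.log x ∧
    3 ≤ x ∧ R = n0 ^ (4 * A + 3) ∧ (ll x) ≤ n0 ∧ ((n0 : ℕ) : ℝ) ^ (4 * A + 3) ≤ 3 ^ n0 ∧
    (4 : ℝ) ^ R ≤ (x : ℝ) ^ ((1 : ℝ) / 100) ∧ 4 * (4 : ℝ) ^ R ≤ Real.exp ((ll x) ^ (8 * A + 8)) ∧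
    2 ≤ z ∧ (z : ℝ) ≤ (x : ℝ) ^ ((2 : ℝ) / 25) ∧ Real.log x ≤ 15 * Real.log z := by
  obtain ⟨X0, hX0⟩ := asym A
  refine ⟨X0, fun x hx => ?_⟩
  obtain ⟨hs, h200, hceil, hL, hx3⟩ := hX0 x hx
  have hxpos : (0 : ℝ) < x := by exact_mod_cast (by omega : 0 < x)
  refine ⟨⌈ll x⌉₊, ⌈ll x⌉₊ ^ (4 * A + 3), ⌊(x : ℝ) ^ ((2 : ℝ) / 25)⌋₊, hs, hL, hx3, rfl,
    Nat.le_ceil _, hceil, ?_, ?_, ?_, ?_, ?_⟩
  · -- 4 ^ R
    have hn : ((⌈ll x⌉₊ : ℕ) : ℝ) ≤ (ll x) ^ 2 := by
      have := Nat.ceil_lt_add_one (by linarith : 0 ≤ ll x)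
      nlinarith
    have hR : ((⌈ll x⌉₊ ^ (4 * A + 3) : ℕ) : ℝ) ≤ (ll x) ^ (8 * A + 6) := by
      push_cast
      calc ((⌈ll x⌉₊ : ℕ) : ℝ) ^ (4 * A + 3) ≤ ((ll x) ^ 2) ^ (4 * A + 3) :=
            pow_le_pow_left₀ (by positivity) hn _
        _ = (ll x) ^ (8 * A + 6) := by rw [← pow_mul]; ring_nf
    refine le_trans (four_pow_le _) ?_
    rw [Real.rpow_def_of_pos hxpos]
    apply Real.exp_le_exp.2
    linarith
  · have hn : ((⌈ll x⌉₊ : ℕ) : ℝ) ≤ (ll x) ^ 2 := by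
      have := Nat.ceil_lt_add_one (by linarith : 0 ≤ ll x)
      nlinarith
    have hR : ((⌈ll x⌉₊ ^ (4 * A + 3) : ℕ) : ℝ) ≤ (ll x) ^ (8 * A + 6) := by
      push_cast
      calc ((⌈ll x⌉₊ : ℕ) : ℝ) ^ (4 * A + 3) ≤ ((ll x) ^ 2) ^ (4 * A + 3) :=
            pow_le_pow_left₀ (by positivity) hn _
        _ = (ll x) ^ (8 * A + 6) := by rw [← pow_mul]; ring_nf
    have h1 : 4 * (4 : ℝ) ^ (⌈ll x⌉₊ ^ (4 * A + 3)) = 4 ^ (⌈ll x⌉₊ ^ (4 * A + 3) + 1) := by
      rw [pow_succ]; ring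
    rw [h1]
    refine le_trans (four_pow_le _) ?_
    apply Real.exp_le_exp.2
    push_cast
    push_cast at hR
    have h2 : (1 : ℝ) ≤ (ll x) ^ (8 * A + 6) := one_le_pow₀ (by linarith)
    have h3 : (ll x) ^ (8 * A + 8) = (ll x) ^ (8 * A + 6) * (ll x) ^ 2 := by
      rw [← pow_add]
    rw [h3]
    have h5 : (4 : ℝ) ≤ (ll x) ^ 2 := by nlinarith
    have h6 : (ll x) ^ (8 * A + 6) * 4 ≤ (ll x) ^ (8 * A + 6) * (ll x) ^ 2 :=
      mul_le_mul_of_nonneg_left h5 (by linarith)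
    linarith
  · have h1 : (2 : ℝ) ≤ (x : ℝ) ^ ((2 : ℝ) / 25) := by
      rw [Real.rpow_def_of_pos hxpos]
      have := Real.add_one_le_exp (Real.log x * ((2 : ℝ) / 25))
      linarith
    exact Nat.le_floor (by exact_mod_cast h1)
  · exact Nat.floor_le (by positivity)
  · have h1 : (2 : ℝ) ≤ (x : ℝ) ^ ((2 : ℝ) / 25) := by
      rw [Real.rpow_def_of_pos hxpos]
      have := Real.add_one_le_exp (Real.log x * ((2 : ℝ) / 25))
      linarith
    have h2 : (x : ℝ) ^ ((2 : ℝ) / 25) / 2 ≤ ((⌊(x : ℝ) ^ ((2 : ℝ) / 25)⌋₊ : ℕ) : ℝ) := by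
      have := Nat.lt_floor_add_one ((x : ℝ) ^ ((2 : ℝ) / 25))
      linarith
    have h3 := Real.log_le_log (by positivity) h2
    rw [Real.log_div (by positivity) (by norm_num), Real.log_rpow hxpos] at h3
    have h4 := Real.log_two_lt_d9
    linarith

lemma numeric1 (K n0 R : ℕ) (hK : 1 ≤ K) (hn0 : 1 ≤ n0) (Pi M : ℝ) (hPi : 0 < Pi) (hM : 0 < M)
    (hPiR : 1 ≤ Pi * R) (hR : (R : ℝ) ≤ 3 ^ n0) :
    ((Pi * M) ^ K) ^ (K * n0 - 1) * (4 * M ^ K) ≤ (12 * (Pi * M) ^ K) ^ (K * n0) := by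
  have hj1 : 1 ≤ K * n0 := Nat.mul_pos hK hn0
  have h2 : (R : ℝ) ^ K ≤ 3 ^ (K * n0) := by
    rw [mul_comm K n0, pow_mul]
    exact pow_le_pow_left₀ (by positivity) hR K
  generalize K * n0 = j at *
  have h1 : (12 * (Pi * M) ^ K) ^ j = ((Pi * M) ^ K) ^ (j - 1) * ((12 : ℝ) ^ j * (Pi * M) ^ K) := by
    have : ((Pi * M) ^ K) ^ j = ((Pi * M) ^ K) ^ (j - 1) * (Pi * M) ^ K := by
      rw [← pow_succ, show j - 1 + 1 = j by omega]
    rw [mul_pow, this]
    ring
  rw [h1]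
  apply mul_le_mul_of_nonneg_left _ (by positivity)
  have h3 : (1 : ℝ) ≤ Pi ^ K * R ^ K := by
    rw [← mul_pow]
    exact one_le_pow₀ hPiR
  have h4 : (1 : ℝ) ≤ 3 ^ j * Pi ^ K := by
    calc (1 : ℝ) ≤ Pi ^ K * R ^ K := h3
      _ ≤ Pi ^ K * 3 ^ j := mul_le_mul_of_nonneg_left h2 (by positivity)
      _ = 3 ^ j * Pi ^ K := by ring
  have h5 : (4 : ℝ) ≤ 4 ^ j := le_self_pow₀ (by norm_num) (by omega)
  have h6 : (12 : ℝ) ^ j = 4 ^ j * 3 ^ j := by
    rw [← mul_pow]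
    norm_num
  rw [h6, mul_pow Pi]
  calc 4 * M ^ K = 4 * 1 * M ^ K := by ring
    _ ≤ 4 ^ j * (3 ^ j * Pi ^ K) * M ^ K := by
        apply mul_le_mul_of_nonneg_right _ (by positivity)
        exact mul_le_mul h5 h4 (by norm_num) (by positivity)
    _ = 4 ^ j * 3 ^ j * (Pi ^ K * M ^ K) := by ring

theorem momentCL0 (hP : CL0point) (hCC : ClassCount) (hTA : TupleAvg) : MomentCL0 := by
  classical
  refine ⟨216, by norm_num, fun A => ?_⟩
  obtain ⟨X0, hX0⟩ := params A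
  refine ⟨8 * A + 8, X0, ?_⟩
  intro x hx K a M Y S hK hKs haM hM hY hS
  obtain ⟨n0, R, z, hs, hL, hx3, hRdef, hn0, hceil, h4R, h4R', hz2, hzx, hlz⟩ := hX0 x hx
  set s := ll x with hsdef
  set L := Real.log x with hLdef
  have hxr : (1 : ℝ) ≤ x := by exact_mod_cast (by omega : 1 ≤ x)
  have hY0 : 0 < Y := lt_of_lt_of_le (by positivity) hY
  set P := primorial R with hPdef
  have hPpos : 0 < P := primorial_pos R
  have hP4 : (P : ℝ) ≤ 4 ^ R := by exact_mod_cast primorial_le_four_pow R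
  have hn4 : 4 ≤ n0 := by
    have : (4 : ℝ) ≤ n0 := le_trans hs hn0
    exact_mod_cast this
  -- size of R
  have hKn : (K : ℝ) ≤ (n0 : ℝ) ^ A := le_trans hKs (pow_le_pow_left₀ (by linarith) hn0 A)
  have hnA : (1 : ℝ) ≤ (n0 : ℝ) ^ A := one_le_pow₀ (by linarith)
  have hn0r : (4 : ℝ) ≤ n0 := by exact_mod_cast hn4
  have hRr : (R : ℝ) = ((n0 : ℝ) ^ A) ^ 4 * (n0 : ℝ) ^ 3 := by
    rw [hRdef]
    push_cast
    rw [← pow_mul, ← pow_add]
    congr 1
    ring
  have hRbig : 4 * (2 * ((K : ℝ) + 1) * (K * n0)) * (K * (K + 1) / 2) ≤ R := by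
    have h1 : (K : ℝ) + 1 ≤ 2 * (n0 : ℝ) ^ A := by linarith
    have h2 : ((K : ℝ) + 1) ^ 2 ≤ (2 * (n0 : ℝ) ^ A) ^ 2 := pow_le_pow_left₀ (by positivity) h1 2
    have h3 : (K : ℝ) ^ 2 ≤ ((n0 : ℝ) ^ A) ^ 2 := pow_le_pow_left₀ (by positivity) hKn 2
    have h4 : (K : ℝ) ^ 2 * ((K : ℝ) + 1) ^ 2 ≤ ((n0 : ℝ) ^ A) ^ 2 * (2 * (n0 : ℝ) ^ A) ^ 2 :=
      mul_le_mul h3 h2 (by positivity) (by positivity)
    calc 4 * (2 * ((K : ℝ) + 1) * (K * n0)) * (K * (K + 1) / 2)
        = 4 * n0 * ((K : ℝ) ^ 2 * ((K : ℝ) + 1) ^ 2) := by ring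
      _ ≤ 4 * n0 * (((n0 : ℝ) ^ A) ^ 2 * (2 * (n0 : ℝ) ^ A) ^ 2) :=
          mul_le_mul_of_nonneg_left h4 (by positivity)
      _ = ((n0 : ℝ) ^ A) ^ 4 * (16 * n0) := by ring
      _ ≤ ((n0 : ℝ) ^ A) ^ 4 * (n0 : ℝ) ^ 3 := by
          apply mul_le_mul_of_nonneg_left _ (by positivity)
          have h5 : (16 : ℝ) ≤ (n0 : ℝ) ^ 2 := by nlinarith
          have h6 : (n0 : ℝ) * 16 ≤ n0 * (n0 : ℝ) ^ 2 :=
            mul_le_mul_of_nonneg_left h5 (by linarith)
          have h7 : (n0 : ℝ) ^ 3 = n0 * (n0 : ℝ) ^ 2 := by ring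
          linarith
      _ = R := hRr.symm
  have hR1 : K + 1 ≤ R := by
    have h1 : (K : ℝ) + 1 ≤ R := by
      refine le_trans ?_ hRbig
      have hK1 : (1 : ℝ) ≤ K := by exact_mod_cast hK
      have h2 : (1 : ℝ) ≤ K * n0 := by nlinarith
      have h3 : (1 : ℝ) ≤ K * (K + 1) / 2 := by nlinarith
      calc (K : ℝ) + 1 ≤ 8 * (K + 1) := by linarith
        _ = 4 * (2 * ((K : ℝ) + 1) * 1) * 1 := by ring
        _ ≤ 4 * (2 * ((K : ℝ) + 1) * (K * n0)) * (K * (K + 1) / 2) := by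
            apply mul_le_mul _ h3 (by positivity) (by positivity)
            apply mul_le_mul_of_nonneg_left _ (by norm_num)
            apply mul_le_mul_of_nonneg_left h2 (by positivity)
    exact_mod_cast h1
  have hR1' : 1 ≤ R := by omega
  have hRlt : (R : ℝ) < 4 ^ R := by exact_mod_cast Nat.lt_pow_self (by norm_num : 1 < 4) (n := R)
  -- a
  have ha1 : 1 ≤ a := by
    rcases haM with h | h
    · omega
    · exact h.1.pos
  have haR : ∀ l, l.Prime → l ∣ a → R < l := by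
    intro l hl hla
    rcases haM with h | h
    · rw [h] at hla
      exact absurd (Nat.dvd_one.1 hla) hl.one_lt.ne'
    · have h1 : l = a := (Nat.prime_dvd_prime_iff_eq hl h.1).1 hla
      rw [h1]
      have h2 : (R : ℝ) < a := by linarith [h.2]
      exact_mod_cast h2
  have hsiga : 2 * ((K : ℝ) + 1) * sig R a ≤ 1 := by
    rcases haM with h | h
    · rw [h]
      simp [sig]
    · have h2 : sig R a ≤ 1 / a := by
        unfold sig
        rw [h.1.primeFactors, Finset.filter_singleton]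
        split_ifs
        · simp
        · simp
      have h3 : (0 : ℝ) < a := by exact_mod_cast h.1.pos
      have h4 : 2 * ((K : ℝ) + 1) ≤ a := by
        have h5 : (K : ℝ) + 1 ≤ R := by exact_mod_cast hR1
        linarith [h.2]
      calc 2 * ((K : ℝ) + 1) * sig R a ≤ 2 * ((K : ℝ) + 1) * (1 / a) :=
            mul_le_mul_of_nonneg_left h2 (by positivity)
        _ = 2 * ((K : ℝ) + 1) / a := by ring
        _ ≤ 1 := by rw [div_le_one h3]; exact h4
  -- M
  have h4P : 4 * P ≤ M := by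
    have h1 : (4 : ℝ) * P ≤ M := by
      calc (4 : ℝ) * P ≤ 4 * 4 ^ R := by linarith
        _ ≤ _ := h4R'
        _ ≤ M := hM
    exact_mod_cast h1
  have hM0 : (0 : ℝ) < M := by exact_mod_cast (by omega : 0 < M)
  -- Pi
  have hφpos : 0 < P.totient := Nat.totient_pos.2 hPpos
  set Pi : ℝ := (P.totient : ℝ) / P with hPidef
  have hPr : (0 : ℝ) < P := by exact_mod_cast hPpos
  have hφr : (0 : ℝ) < P.totient := by exact_mod_cast hφpos
  have hPi0 : 0 < Pi := by positivity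
  have hPiR : 1 ≤ Pi * R := by
    have h1 : (P : ℝ) ≤ R * P.totient := by exact_mod_cast primorial_ratio R hR1'
    rw [hPidef, div_mul_eq_mul_div, le_div_iff₀ hPr]
    linarith
  -- X'
  set X' : ℕ := ⌊2 * Y / P⌋₊ + 1 with hX'def
  have hPY : (P : ℝ) ≤ Y := by
    calc (P : ℝ) ≤ 4 ^ R := hP4
      _ ≤ (x : ℝ) ^ ((1 : ℝ) / 100) := h4R
      _ ≤ (x : ℝ) ^ ((1 : ℝ) / 4) := Real.rpow_le_rpow_of_exponent_le hxr (by norm_num)
      _ ≤ Y := hY
  have hPX : (P : ℝ) * X' ≤ 3 * Y := by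
    rw [hX'def]
    push_cast
    have h1 := Nat.floor_le (by positivity : 0 ≤ 2 * Y / P)
    have h2 : (P : ℝ) * (2 * Y / P) = 2 * Y := by field_simp
    nlinarith
  have hz3 : z ^ 3 ≤ X' := by
    have h1 : ((z ^ 3 : ℕ) : ℝ) ≤ 2 * Y / P := by
      push_cast
      rw [le_div_iff₀ hPr]
      have h2 : (z : ℝ) ^ 3 ≤ ((x : ℝ) ^ ((2 : ℝ) / 25)) ^ 3 := pow_le_pow_left₀ (by positivity) hzx 3
      have h3 : ((x : ℝ) ^ ((2 : ℝ) / 25)) ^ 3 = (x : ℝ) ^ ((6 : ℝ) / 25) := by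
        rw [← Real.rpow_natCast, ← Real.rpow_mul (by positivity)]
        norm_num
      have h4 : (P : ℝ) ≤ (x : ℝ) ^ ((1 : ℝ) / 100) := le_trans hP4 h4R
      have h5 : (x : ℝ) ^ ((6 : ℝ) / 25) * (x : ℝ) ^ ((1 : ℝ) / 100) = (x : ℝ) ^ ((1 : ℝ) / 4) := by
        rw [← Real.rpow_add (by linarith)]
        norm_num
      calc (z : ℝ) ^ 3 * P ≤ (x : ℝ) ^ ((6 : ℝ) / 25) * (x : ℝ) ^ ((1 : ℝ) / 100) := by
            rw [← h3]
            exact mul_le_mul h2 h4 (by positivity) (by positivity)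
        _ = (x : ℝ) ^ ((1 : ℝ) / 4) := h5
        _ ≤ Y := hY
        _ ≤ 2 * Y := by linarith
    have h6 : z ^ 3 ≤ ⌊2 * Y / P⌋₊ := Nat.le_floor h1
    omega
  -- q large
  have hqbig : ∀ t ∈ S, R < t.1 ∧ z < t.1 := by
    intro t ht
    obtain ⟨h1, h2, h3⟩ := hS t ht
    constructor
    · have h4 : (R : ℝ) < t.1 := by
        calc (R : ℝ) < 4 ^ R := hRlt
          _ ≤ (x : ℝ) ^ ((1 : ℝ) / 100) := h4R
          _ ≤ (x : ℝ) ^ ((1 : ℝ) / 5) := Real.rpow_le_rpow_of_exponent_le hxr (by norm_num)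
          _ ≤ t.1 := h2
      exact_mod_cast h4
    · have hx1 : (1 : ℝ) < x := by exact_mod_cast (by omega : 1 < x)
      have h4 : (z : ℝ) < t.1 := by
        calc (z : ℝ) ≤ (x : ℝ) ^ ((2 : ℝ) / 25) := hzx
          _ < (x : ℝ) ^ ((1 : ℝ) / 5) := Real.rpow_lt_rpow_of_exponent_lt hx1 (by norm_num)
          _ ≤ t.1 := h2
      exact_mod_cast h4
  have hlz0 : 0 < Real.log z := by linarith
  set W : (Fin K → ℕ) → ℝ := fun μ => Real.exp (2 * ((K : ℝ) + 1) * sig R (Del K μ)) with hWdef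
  set c0 : ℝ := 2 * X' * (((K : ℝ) + 1) * P / (P.totient * Real.log z)) ^ (K + 1) with hc0def
  have hc0 : 0 ≤ c0 := by positivity
  have hdec := card_decomp K P hPpos S (3 * c0) W (12 * (Pi * M) ^ K)
    (by
      intro t ht
      have h1 := coprime_primorial t.1 R (hS t ht).1 (hqbig t ht).1
      rw [← hPdef] at h1
      rw [Nat.coprime_iff_gcd_eq_one, Nat.gcd_comm, ← Nat.gcd_rec]
      exact h1.symm)
    (by
      intro b μ F hFne hF
      obtain ⟨n1, hn1⟩ := hFne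
      have hb := (hF n1 hn1).1
      have hbc : Nat.Coprime b P := by
        have h1 := coprime_primorial _ R (hS _ hb).1 (hqbig _ hb).1
        rw [← hPdef] at h1
        simpa [Nat.coprime_add_mul_left_left] using h1
      have hbS := hS _ hb
      have hpt := hP K R a b z X' μ F hK hR1 ha1 hz2 haR hz3 hbc hbS.2.2.2.1
        (fun i => by
          have h9 := (hbS.2.2.2.2 i).1
          simp only at h9
          omega)
        (by
          intro n hn
          have h1 := (hF n hn).1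
          have h2 := hS _ h1
          have h3 := hqbig _ h1
          simp only at h2 h3
          refine ⟨?_, ?_, ?_⟩
          · rw [hX'def, Nat.lt_succ_iff]
            apply Nat.le_floor
            rw [le_div_iff₀ hPr]
            have h4 := h2.2.2.1
            push_cast at h4
            have h5 : (0 : ℝ) ≤ b := by positivity
            linarith
          · intro l hl hlz hdvd
            have h4 := (Nat.prime_dvd_prime_iff_eq hl h2.1).1 hdvd
            omega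
          · intro i l hl hlz hdvd
            have h5 := (h2.2.2.2.2 i)
            have h4 := (Nat.prime_dvd_prime_iff_eq hl h5.2.2).1 hdvd
            have h6 : 1 ≤ a * μ i := Nat.mul_pos ha1 (by omega)
            have h7 : b + P * n ≤ a * μ i * (b + P * n) := Nat.le_mul_of_pos_left _ h6
            omega)
      refine le_trans hpt ?_
      have h8 : Real.exp (2 * ((K : ℝ) + 1) * (sig R a + sig R (Del K μ))) ≤ 3 * W μ := by
        rw [hWdef, mul_add, Real.exp_add]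
        apply mul_le_mul_of_nonneg_right _ (Real.exp_pos _).le
        calc Real.exp (2 * ((K : ℝ) + 1) * sig R a) ≤ Real.exp 1 := Real.exp_le_exp.2 hsiga
          _ ≤ 3 := by have := Real.exp_one_lt_d9; linarith
      calc c0 * Real.exp (2 * ((K : ℝ) + 1) * (sig R a + sig R (Del K μ))) ≤ c0 * (3 * W μ) :=
            mul_le_mul_of_nonneg_left h8 hc0
        _ = 3 * c0 * W μ := by ring)
    (by positivity)
    (by
      intro b T hT
      rcases T.eq_empty_or_nonempty with he | hne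
      · rw [he, Finset.sum_empty]
        positivity
      have hbc : Nat.Coprime b P := by
        obtain ⟨μ, hμ⟩ := hne
        obtain ⟨q, hq, hqb⟩ := hT μ hμ
        have h1 := coprime_primorial _ R (hS _ hq).1 (hqbig _ hq).1
        rw [← hPdef] at h1
        rw [← hqb]
        simp only at h1
        rw [Nat.Coprime, ← Nat.gcd_rec]
        exact h1.symm
      set Ab := (Finset.Ioc (M / 2) M).filter (fun m => Nat.Coprime (a * m * b + 1) P) with hAb
      have hAbcard : (Ab.card : ℝ) ≤ Pi * M := hCC a b R M haR ha1 hbc h4P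
      have hTsub : T ⊆ Fintype.piFinset (fun _ : Fin K => Ab) := by
        intro μ hμ
        obtain ⟨q, hq, hqb⟩ := hT μ hμ
        rw [Fintype.mem_piFinset]
        intro i
        have h2 := hS _ hq
        have h3 := h2.2.2.2.2 i
        simp only at h2 h3
        rw [hAb, Finset.mem_filter, Finset.mem_Ioc]
        refine ⟨⟨h3.1, h3.2.1⟩, ?_⟩
        have h4 : R < a * μ i * q + 1 := by
          have h6 : 1 ≤ a * μ i := Nat.mul_pos ha1 (by omega)
          have h7 : q ≤ a * μ i * q := Nat.le_mul_of_pos_left _ h6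
          have h8 := (hqbig _ hq).1
          simp only at h8
          omega
        have h5 := coprime_primorial _ R h3.2.2 h4
        rw [← hPdef] at h5
        have h6 : a * μ i * q + 1 = (a * μ i * b + 1) + P * (a * μ i * (q / P)) := by
          have h7 := Nat.mod_add_div q P
          rw [hqb] at h7
          calc a * μ i * q + 1 = a * μ i * (b + P * (q / P)) + 1 := by rw [h7]
            _ = (a * μ i * b + 1) + P * (a * μ i * (q / P)) := by ring
        rw [h6] at h5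
        simpa [Nat.coprime_add_mul_left_left] using h5
      have hTcard : (T.card : ℝ) ≤ (Pi * M) ^ K := by
        calc (T.card : ℝ) ≤ ((Fintype.piFinset (fun _ : Fin K => Ab)).card : ℝ) := by
              exact_mod_cast Finset.card_le_card hTsub
          _ = (Ab.card : ℝ) ^ K := by
              rw [Fintype.card_piFinset]
              simp
          _ ≤ (Pi * M) ^ K := pow_le_pow_left₀ (by positivity) hAbcard K
      have hTA' := hTA K R M (2 * ((K : ℝ) + 1) * ((K * n0 : ℕ) : ℝ)) T hK (by positivity) hR1'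
        (by push_cast; exact hRbig)
        (by
          intro μ hμ
          obtain ⟨q, hq, hqb⟩ := hT μ hμ
          have h2 := hS _ hq
          simp only at h2
          refine ⟨h2.2.2.2.1, fun i => ?_⟩
          have h3 := h2.2.2.2.2 i
          omega)
      have hj : 1 ≤ K * n0 := Nat.mul_pos hK (by omega)
      refine power_mean T W (fun μ => (Real.exp_pos _).le) (K * n0) hj ((Pi * M) ^ K)
        (4 * (M : ℝ) ^ K) (12 * (Pi * M) ^ K) (by positivity) hTcard ?_ ?_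
      · refine le_trans (le_of_eq ?_) hTA'
        apply Finset.sum_congr rfl
        intro μ _
        rw [hWdef]
        simp only
        rw [← Real.exp_nat_mul]
        congr 1
        ring
      · exact numeric1 K n0 R hK (by omega) Pi M hPi0 hM0 hPiR (by
          rw [hRdef]
          push_cast
          exact hceil))
  -- final
  refine le_trans hdec ?_
  have hcomp : (P.totient : ℝ) * (3 * c0 * (12 * (Pi * M) ^ K)) =
      72 * (P * X') * (M : ℝ) ^ K * (((K : ℝ) + 1) / Real.log z) ^ (K + 1) := by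
    have h1 : ((K : ℝ) + 1) * P / (P.totient * Real.log z) =
        (((K : ℝ) + 1) / Real.log z) * Pi⁻¹ := by
      rw [hPidef]
      field_simp
    have h2 : (P.totient : ℝ) = Pi * P := by
      rw [hPidef]
      field_simp
    rw [hc0def, h1, h2, mul_pow _ Pi⁻¹, pow_succ Pi⁻¹ K, mul_pow Pi, inv_pow]
    field_simp
    ring
  rw [hcomp]
  have h5 : (((K : ℝ) + 1) / Real.log z) ^ (K + 1) ≤ (((K : ℝ) + 1) * 216 / L) ^ (K + 1) := by
    apply pow_le_pow_left₀ (by positivity)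
    rw [div_le_div_iff₀ hlz0 (by linarith)]
    have : (0 : ℝ) ≤ (K : ℝ) + 1 := by positivity
    nlinarith
  calc 72 * ((P : ℝ) * X') * (M : ℝ) ^ K * (((K : ℝ) + 1) / Real.log z) ^ (K + 1)
      ≤ 72 * (3 * Y) * (M : ℝ) ^ K * (((K : ℝ) + 1) * 216 / L) ^ (K + 1) := by
        apply mul_le_mul _ h5 (by positivity) (by positivity)
        apply mul_le_mul_of_nonneg_right _ (by positivity)
        linarith
    _ = 216 * Y * (M : ℝ) ^ K * (((K : ℝ) + 1) * 216 / L) ^ (K + 1) := by ring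

end Pool.Agent.Helper9.TOT
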