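import Pool.Agent.Helper44.TOT.Defs

/-!
# TOT pieces MomentCL0, CL0, CLC: common lemmas
-/

set_option autoImplicit false

namespace Pool.Agent.Helper9.TOT

open Pool.Agent.Helper44.TOT

/-- number of injective maps into a finset -/
lemma descFactorial_le_card (U : Finset ℕ) (K : ℕ) :
    U.card.descFactorial K ≤
      ((Fintype.piFinset (fun _ : Fin K => U)).filter (fun μ => Function.Injective μ)).card := by
  classical
  have h1 : Fintype.card (Fin K ↪ U) = U.card.descFactorial K := by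
    rw [Fintype.card_embedding_eq]
    simp
  rw [← h1, ← Finset.card_univ]
  apply Finset.card_le_card_of_injOn (fun e : Fin K ↪ U => fun i => ((e i : U) : ℕ))
  · intro e _
    simp only [Finset.coe_filter, Set.mem_ofPred_eq, Fintype.mem_piFinset]
    refine ⟨fun i => (e i).2, ?_⟩
    intro i j hij
    exact e.injective (Subtype.ext hij)
  · intro e _ e' _ h
    apply DFunLike.ext
    intro i
    exact Subtype.ext (congrFun h i)

/-- the Hoelder step -/
lemma holder_step (hH : HolderFF) (E : Finset ℕ) (T : Finset (ℕ × ℕ)) (hT : ∀ t ∈ T, t.1 ∈ E)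
    (K : ℕ) (hK : 1 ≤ K) (B : ℝ)
    (hB : ∀ S : Finset (ℕ × (Fin K → ℕ)),
      (∀ t ∈ S, t.1 ∈ E ∧ Function.Injective t.2 ∧ ∀ i, (t.1, t.2 i) ∈ T) → (S.card : ℝ) ≤ B) :
    ((T.card : ℝ) - 2 * K * E.card) ≤ 0 ∨
      ((T.card : ℝ) - 2 * K * E.card) ^ K ≤ (E.card : ℝ) ^ (K - 1) * 2 ^ K * B := by
  classical
  -- fibres
  set U : ℕ → Finset ℕ := fun q => (T.filter (fun t => t.1 = q)).image Prod.snd with hU
  have hUmem : ∀ q m, m ∈ U q ↔ (q, m) ∈ T := by
    intro q m
    simp only [hU, Finset.mem_image, Finset.mem_filter]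
    constructor
    · rintro ⟨⟨a, b⟩, ⟨h1, h2⟩, h3⟩
      simp only at h2 h3
      subst h2 h3
      exact h1
    · intro h
      exact ⟨(q, m), ⟨h, rfl⟩, rfl⟩
  have hUcard : ∀ q, (U q).card = (T.filter (fun t => t.1 = q)).card := by
    intro q
    apply Finset.card_image_of_injOn
    rintro ⟨a, b⟩ h1 ⟨c, d⟩ h2 h3
    simp only [Finset.coe_filter, Set.mem_ofPred_eq] at h1 h2 h3
    rw [Prod.mk.injEq]
    exact ⟨h1.2.trans h2.2.symm, h3⟩
  have hsum : ∑ q ∈ E, (((U q).card : ℕ) : ℝ) = (T.card : ℝ) := by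
    have h1 : T.card = ∑ q ∈ E, (T.filter (fun t => t.1 = q)).card :=
      Finset.card_eq_sum_card_fiberwise (fun t ht => hT t ht)
    rw [h1]
    push_cast
    exact Finset.sum_congr rfl (fun q _ => by rw [hUcard q])
  -- the set of pairs
  set S : Finset (ℕ × (Fin K → ℕ)) := E.biUnion (fun q =>
    ((Fintype.piFinset (fun _ : Fin K => U q)).filter (fun μ => Function.Injective μ)).image
      (fun μ => (q, μ))) with hS
  have hScard : S.card = ∑ q ∈ E,
      ((Fintype.piFinset (fun _ : Fin K => U q)).filter (fun μ => Function.Injective μ)).card := by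
    rw [hS, Finset.card_biUnion]
    · apply Finset.sum_congr rfl
      intro q _
      apply Finset.card_image_of_injective
      intro μ ν h
      exact (Prod.mk.inj h).2
    · intro q _ q' _ hne
      rw [Function.onFun, Finset.disjoint_left]
      intro t h1 h2
      rw [Finset.mem_image] at h1 h2
      obtain ⟨μ, -, h3⟩ := h1
      obtain ⟨ν, -, h4⟩ := h2
      exact hne ((Prod.mk.inj (h3.trans h4.symm)).1)
  have hSprop : ∀ t ∈ S, t.1 ∈ E ∧ Function.Injective t.2 ∧ ∀ i, (t.1, t.2 i) ∈ T := by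
    intro t ht
    rw [hS, Finset.mem_biUnion] at ht
    obtain ⟨q, hq, h1⟩ := ht
    rw [Finset.mem_image] at h1
    obtain ⟨μ, h2, h3⟩ := h1
    rw [Finset.mem_filter, Fintype.mem_piFinset] at h2
    rw [← h3]
    exact ⟨hq, h2.2, fun i => (hUmem q _).1 (h2.1 i)⟩
  have hle : ∑ q ∈ E, (((U q).card.descFactorial K : ℕ) : ℝ) ≤ B := by
    refine le_trans ?_ (hB S hSprop)
    rw [hScard]
    push_cast
    apply Finset.sum_le_sum
    intro q _
    exact_mod_cast descFactorial_le_card (U q) K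
  rcases hH E (fun q => (U q).card) K hK with h | h
  · left
    rw [hsum] at h
    exact h
  · right
    rw [hsum] at h
    refine le_trans h ?_
    exact mul_le_mul_of_nonneg_left hle (by positivity)

/-- `ll x → ∞` -/
lemma ll_tendsto : Filter.Tendsto (fun x : ℕ => ll x) Filter.atTop Filter.atTop :=
  Real.tendsto_log_atTop.comp (Real.tendsto_log_atTop.comp tendsto_natCast_atTop_atTop)

lemma ll_ge (c : ℝ) : ∃ X0 : ℕ, ∀ x : ℕ, X0 ≤ x → c ≤ ll x := by
  have h := ll_tendsto.eventually_ge_atTop c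
  exact Filter.eventually_atTop.1 h

/-- the number `K` -/
noncomputable def Kof (μ : ℝ) : ℕ := ⌈max 0 (-Real.log μ)⌉₊ + 1

lemma Kof_ge (μ : ℝ) : 1 ≤ Kof μ := by unfold Kof; omega

lemma Kof_le (μ : ℝ) : (Kof μ : ℝ) ≤ max 0 (-Real.log μ) + 2 := by
  unfold Kof
  push_cast
  have := Nat.ceil_lt_add_one (le_max_left 0 (-Real.log μ))
  linarith

lemma Kof_exp (μ : ℝ) (hμ : 0 < μ) : 1 ≤ μ * Real.exp (Kof μ) := by
  have h1 : -Real.log μ ≤ (Kof μ : ℝ) := by
    unfold Kof
    push_cast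
    have h2 := Nat.le_ceil (max 0 (-Real.log μ))
    have h3 := le_max_right 0 (-Real.log μ)
    linarith
  calc (1 : ℝ) = μ * Real.exp (-Real.log μ) := by
        rw [Real.exp_neg, Real.exp_log hμ, mul_inv_cancel₀ hμ.ne']
    _ ≤ μ * Real.exp (Kof μ) := by
        apply mul_le_mul_of_nonneg_left (Real.exp_le_exp.2 h1) hμ.le

lemma Kof_le_pow (μ s : ℝ) (A : ℕ) (hs : 3 ≤ s) (hμ : Real.exp (-s ^ A) ≤ μ) :
    (Kof μ : ℝ) ≤ s ^ (A + 1) := by
  have hμ0 : 0 < μ := lt_of_lt_of_le (Real.exp_pos _) hμ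
  have h1 : -Real.log μ ≤ s ^ A := by
    have := Real.log_le_log (Real.exp_pos _) hμ
    rw [Real.log_exp] at this
    linarith
  have h2 : (1 : ℝ) ≤ s ^ A := one_le_pow₀ (by linarith)
  have h3 : max 0 (-Real.log μ) ≤ s ^ A := max_le (by linarith) h1
  have h4 := Kof_le μ
  have h5 : s ^ (A + 1) = s ^ A * s := pow_succ s A
  nlinarith

end Pool.Agent.Helper9.TOT
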