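import Pool.Agent.Helper9.TOT.Common

/-!
# TOT piece MomentCL0: auxiliary lemmas
-/

set_option autoImplicit false

namespace Pool.Agent.Helper9.TOT

open Pool.Agent.Helper44.TOT

lemma exp_nat_le (n : ℕ) : Real.exp (n : ℝ) ≤ 3 ^ n := by
  have h17 : Real.exp (n : ℝ) = Real.exp 1 ^ n := by
    rw [← Real.exp_nat_mul, mul_one]
  rw [h17]
  apply pow_le_pow_left₀ (Real.exp_pos _).le
  have := Real.exp_one_lt_d9
  linarith

lemma four_pow_le (n : ℕ) : (4 : ℝ) ^ n ≤ Real.exp (2 * n) := by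
  have h1 : Real.exp (2 * n) = (Real.exp 1 ^ 2) ^ n := by
    rw [← pow_mul, ← Real.exp_nat_mul]
    push_cast
    ring_nf
  rw [h1]
  apply pow_le_pow_left₀ (by norm_num)
  have := Real.exp_one_gt_d9
  nlinarith

/-- asymptotic facts -/
lemma asym (A : ℕ) : ∃ X0 : ℕ, ∀ x : ℕ, X0 ≤ x → 4 ≤ ll x ∧
    200 * (ll x) ^ (8 * A + 6) ≤ Real.log x ∧
    ((⌈ll x⌉₊ : ℕ) : ℝ) ^ (4 * A + 3) ≤ 3 ^ (⌈ll x⌉₊) ∧ 100 ≤ Real.log x ∧ 3 ≤ x := by
  obtain ⟨X1, hX1⟩ := ll_ge 4
  have h2 : ∀ᶠ x : ℕ in Filter.atTop, 200 ≤ Real.exp (ll x) / (ll x) ^ (8 * A + 6) :=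
    ((Real.tendsto_exp_div_pow_atTop (8 * A + 6)).comp ll_tendsto).eventually_ge_atTop 200
  have hceil : Filter.Tendsto (fun x : ℕ => ((⌈ll x⌉₊ : ℕ) : ℝ)) Filter.atTop Filter.atTop :=
    Filter.tendsto_atTop_mono (fun x => Nat.le_ceil (ll x)) ll_tendsto
  have h3 : ∀ᶠ x : ℕ in Filter.atTop,
      1 ≤ Real.exp ((⌈ll x⌉₊ : ℕ) : ℝ) / ((⌈ll x⌉₊ : ℕ) : ℝ) ^ (4 * A + 3) :=
    ((Real.tendsto_exp_div_pow_atTop (4 * A + 3)).comp hceil).eventually_ge_atTop 1
  have h4 : ∀ᶠ x : ℕ in Filter.atTop, 100 ≤ Real.log x :=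
    (Real.tendsto_log_atTop.comp tendsto_natCast_atTop_atTop).eventually_ge_atTop 100
  obtain ⟨X2, hX2⟩ := Filter.eventually_atTop.1 h2
  obtain ⟨X3, hX3⟩ := Filter.eventually_atTop.1 h3
  obtain ⟨X4, hX4⟩ := Filter.eventually_atTop.1 h4
  refine ⟨max (max X1 X2) (max (max X3 X4) 3), fun x hx => ?_⟩
  have hs : 4 ≤ ll x := hX1 x (by omega)
  have hx3 : 3 ≤ x := by omega
  refine ⟨hs, ?_, ?_, hX4 x (by omega), hx3⟩
  · have h5 := hX2 x (by omega)
    rw [le_div_iff₀ (by positivity), ll, Real.exp_log] at h5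
    · exact h5
    · exact Real.log_pos (by exact_mod_cast (by omega : 1 < x))
  · have h5 := hX3 x (by omega)
    have h6 : (0 : ℝ) < ((⌈ll x⌉₊ : ℕ) : ℝ) := lt_of_lt_of_le (by linarith) (Nat.le_ceil (ll x))
    rw [le_div_iff₀ (by positivity), one_mul] at h5
    exact le_trans h5 (exp_nat_le _)

lemma primorial_ratio (R : ℕ) (hR : 1 ≤ R) : primorial R ≤ R * (primorial R).totient := by
  induction R, hR using Nat.le_induction with
  | base => simp
  | succ n hn ih =>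
    by_cases hp : (n + 1).Prime
    · have h1 : primorial (n + 1) = (n + 1) * primorial n := by
        unfold primorial
        rw [Finset.range_add_one, Finset.filter_insert, if_pos hp, Finset.prod_insert (by simp)]
      have hcop : Nat.Coprime (n + 1) (primorial n) := by
        rw [Nat.Prime.coprime_iff_not_dvd hp, hp.dvd_primorial_iff]
        omega
      rw [h1, Nat.totient_mul hcop, Nat.totient_prime hp]
      simp only [Nat.add_sub_cancel]
      calc (n + 1) * primorial n ≤ (n + 1) * (n * (primorial n).totient) :=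
            Nat.mul_le_mul_left _ ih
        _ = (n + 1) * (n * (primorial n).totient) := rfl
    · have h1 : primorial (n + 1) = primorial n := by
        unfold primorial
        rw [Finset.range_add_one, Finset.filter_insert, if_neg hp]
      rw [h1]
      calc primorial n ≤ n * (primorial n).totient := ih
        _ ≤ (n + 1) * (primorial n).totient := Nat.mul_le_mul_right _ (by omega)

lemma coprime_primorial (q R : ℕ) (hq : q.Prime) (h : R < q) : Nat.Coprime q (primorial R) := by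
  rw [Nat.Prime.coprime_iff_not_dvd hq, hq.dvd_primorial_iff]
  omega

/-- power mean -/
lemma power_mean {ι : Type} (T : Finset ι) (W : ι → ℝ) (hW : ∀ i, 0 ≤ W i) (j : ℕ) (hj : 1 ≤ j)
    (B G V : ℝ) (hV : 0 ≤ V) (hB : (T.card : ℝ) ≤ B) (h1 : ∑ i ∈ T, W i ^ j ≤ G)
    (h2 : B ^ (j - 1) * G ≤ V ^ j) : ∑ i ∈ T, W i ≤ V := by
  obtain ⟨n, rfl⟩ : ∃ n, j = n + 1 := ⟨j - 1, by omega⟩
  have h3 := pow_sum_le_card_mul_sum_pow (s := T) (f := W) (fun i _ => hW i) n
  rw [Nat.add_sub_cancel] at h2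
  have hB0 : 0 ≤ B := le_trans (by positivity) hB
  have h4 : (∑ i ∈ T, W i) ^ (n + 1) ≤ V ^ (n + 1) := by
    refine le_trans h3 (le_trans ?_ h2)
    apply mul_le_mul (pow_le_pow_left₀ (by positivity) hB n) h1
    · exact Finset.sum_nonneg (fun i _ => pow_nonneg (hW i) _)
    · positivity
  by_contra hcon
  rw [not_le] at hcon
  exact absurd (pow_lt_pow_left₀ hcon hV (by omega)) (not_lt.2 h4)

/-- decomposition of the count -/
lemma card_decomp (K P : ℕ) (hP : 0 < P) (S : Finset (ℕ × (Fin K → ℕ))) (c : ℝ)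
    (W : (Fin K → ℕ) → ℝ) (Wsum : ℝ)
    (hcop : ∀ t ∈ S, Nat.Coprime P (t.1 % P))
    (hF : ∀ (b : ℕ) (μ : Fin K → ℕ) (F : Finset ℕ), F.Nonempty →
      (∀ n ∈ F, (b + P * n, μ) ∈ S ∧ b < P) → (F.card : ℝ) ≤ c * W μ)
    (hc : 0 ≤ c)
    (hT : ∀ (b : ℕ) (T : Finset (Fin K → ℕ)), (∀ μ ∈ T, ∃ q, (q, μ) ∈ S ∧ q % P = b) →
      ∑ μ ∈ T, W μ ≤ Wsum) :
    (S.card : ℝ) ≤ P.totient * (c * Wsum) := by
  classical
  set Bs := (Finset.range P).filter (fun b => Nat.Coprime P b) with hBs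
  have hBcard : Bs.card = P.totient := by
    rw [hBs, Nat.totient_eq_card_coprime]
  have hmaps : ∀ t ∈ S, t.1 % P ∈ Bs := by
    intro t ht
    rw [hBs, Finset.mem_filter, Finset.mem_range]
    exact ⟨Nat.mod_lt _ hP, hcop t ht⟩
  have h1 : S.card = ∑ b ∈ Bs, (S.filter (fun t => t.1 % P = b)).card :=
    Finset.card_eq_sum_card_fiberwise hmaps
  have h2 : ∀ b ∈ Bs, ((S.filter (fun t => t.1 % P = b)).card : ℝ) ≤ c * Wsum := by
    intro b hb
    rw [hBs, Finset.mem_filter, Finset.mem_range] at hb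
    set Sb := S.filter (fun t => t.1 % P = b) with hSb
    set Tb := Sb.image Prod.snd with hTb
    have h3 : Sb.card = ∑ μ ∈ Tb, (Sb.filter (fun t => t.2 = μ)).card :=
      Finset.card_eq_sum_card_fiberwise (fun t ht => Finset.mem_image_of_mem _ ht)
    have h4 : ∀ μ ∈ Tb, ((Sb.filter (fun t => t.2 = μ)).card : ℝ) ≤ c * W μ := by
      intro μ hμ
      have h5 : ((Sb.filter (fun t => t.2 = μ)).image (fun t => t.1 / P)).card =
          (Sb.filter (fun t => t.2 = μ)).card := by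
        apply Finset.card_image_of_injOn
        rintro ⟨q, ν⟩ h6 ⟨q', ν'⟩ h7 h8
        simp only [hSb, Finset.coe_filter, Set.mem_ofPred_eq, Finset.mem_filter] at h6 h7 h8
        rw [Prod.mk.injEq]
        refine ⟨?_, h6.2.trans h7.2.symm⟩
        have h9 := Nat.mod_add_div q P
        have h10 := Nat.mod_add_div q' P
        rw [h6.1.2, h8] at h9
        rw [h7.1.2] at h10
        omega
      rw [← h5]
      apply hF b μ
      · rw [hTb, Finset.mem_image] at hμ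
        obtain ⟨t, ht, hte⟩ := hμ
        exact ⟨t.1 / P, Finset.mem_image_of_mem _ (Finset.mem_filter.2 ⟨ht, hte⟩)⟩
      intro n hn
      rw [Finset.mem_image] at hn
      obtain ⟨⟨q, ν⟩, h6, h7⟩ := hn
      simp only [hSb, Finset.mem_filter] at h6 h7
      have h9 := Nat.mod_add_div q P
      rw [h6.1.2, h7] at h9
      rw [h9, ← h6.2]
      exact ⟨h6.1.1, hb.1⟩
    have h5 : ∑ μ ∈ Tb, W μ ≤ Wsum := by
      apply hT b Tb
      intro μ hμ
      rw [hTb, Finset.mem_image] at hμ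
      obtain ⟨⟨q, ν⟩, h6, h7⟩ := hμ
      simp only [hSb, Finset.mem_filter] at h6 h7
      rw [← h7]
      exact ⟨q, h6.1, h6.2⟩
    rw [h3]
    push_cast
    calc ∑ μ ∈ Tb, ((Sb.filter (fun t => t.2 = μ)).card : ℝ) ≤ ∑ μ ∈ Tb, c * W μ :=
          Finset.sum_le_sum h4
      _ = c * ∑ μ ∈ Tb, W μ := by rw [Finset.mul_sum]
      _ ≤ c * Wsum := mul_le_mul_of_nonneg_left h5 hc
  rw [h1]
  push_cast
  calc ∑ b ∈ Bs, ((S.filter (fun t => t.1 % P = b)).card : ℝ) ≤ ∑ _b ∈ Bs, c * Wsum :=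
        Finset.sum_le_sum h2
    _ = P.totient * (c * Wsum) := by
        rw [Finset.sum_const, nsmul_eq_mul, hBcard]

end Pool.Agent.Helper9.TOT
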